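import Mathlib

/-!
The `p`-solvable groups, their `p`-length, and the largest `p`-length inside `GL(n, F)`.
-/

namespace Pool.Agent.Work.MP_d3ab46_al

/-- `G` is `p`-solvable: every composition factor, that is, every simple quotient `H / K` of a
subnormal subgroup `H` of `G`, has order `p` or order coprime to `p`. -/
def IsPSolvable (p : ℕ) (G : Type) [Group G] : Prop :=
  ∀ (H : Subgroup G) (K : Subgroup H) [K.Normal], H.IsSubnormal → IsSimpleGroup (H ⧸ K) →
    Nat.card (H ⧸ K) = p ∨ (Nat.card (H ⧸ K)).Coprime p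

/-- `1 = s 0 ≤ s 1 ≤ ⋯ ≤ s m = G` is a series of normal subgroups of `G` in which the order of
each factor `s (i + 1) / s i` is a power of `p` or is coprime to `p`. -/
def IsPSeries (p : ℕ) {G : Type} [Group G] (m : ℕ) (s : ℕ → Subgroup G) : Prop :=
  s 0 = ⊥ ∧ s m = ⊤ ∧ (∀ i ≤ m, (s i).Normal) ∧ ∀ i < m, s i ≤ s (i + 1) ∧
    ((∃ e : ℕ, (s i).relIndex (s (i + 1)) = p ^ e) ∨ ((s i).relIndex (s (i + 1))).Coprime p)

/-- The `p`-length: the least number of factors that are nontrivial `p`-groups in such a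
series. -/
noncomputable def pLength (p : ℕ) (G : Type) [Group G] : ℕ :=
  sInf {k | ∃ (m : ℕ) (s : ℕ → Subgroup G), IsPSeries p m s ∧
    k = {i | i < m ∧ ∃ e : ℕ, 0 < e ∧ (s i).relIndex (s (i + 1)) = p ^ e}.ncard}

/-- The largest `p`-length of a `p`-solvable subgroup of `GL(n, F)`. -/
noncomputable def maxLength (p : ℕ) (F : Type) [Field F] (n : ℕ) : ℕ :=
  sSup {l | ∃ H : Subgroup (GL (Fin n) F), IsPSolvable p H ∧ pLength p H = l}

end Pool.Agent.Work.MP_d3ab46_al
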